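import Mathlib
import Pool.Agent.R579.CDVisit

set_option autoImplicit false

open Filter Topology
open scoped NNReal

namespace Pool.Agent.Results.MP_3984bd_an.Exists

open Pool.Agent.R579.CD

section aux

variable (𝕜 : Type) [RCLike 𝕜]

/-- weighted `ℓ¹` seminorm -/
noncomputable def pw (w : Om → ℝ≥0) : Seminorm 𝕜 (V 𝕜) :=
  Seminorm.of (fun u => u.sum fun ω a => (w ω : ℝ) * ‖a‖)
    (by
      classical
      intro u v
      have h1 : ∀ a : V 𝕜, a.support ⊆ u.support ∪ v.support →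
          (a.sum fun ω b => (w ω : ℝ) * ‖b‖) =
            ∑ ω ∈ u.support ∪ v.support, (w ω : ℝ) * ‖a ω‖ := by
        intro a ha
        apply Finsupp.sum_of_support_subset _ ha
        intro i _
        simp
      rw [h1 _ Finsupp.support_add, h1 u Finset.subset_union_left,
        h1 v Finset.subset_union_right, ← Finset.sum_add_distrib]
      apply Finset.sum_le_sum
      intro ω _
      rw [← mul_add, Finsupp.add_apply]
      exact mul_le_mul_of_nonneg_left (norm_add_le _ _) (w ω).2)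
    (by
      classical
      intro c u
      have h1 : ((c • u).sum fun ω b => (w ω : ℝ) * ‖b‖) =
            ∑ ω ∈ u.support, (w ω : ℝ) * ‖(c • u) ω‖ := by
        apply Finsupp.sum_of_support_subset _ Finsupp.support_smul
        intro i _
        simp
      rw [h1, Finsupp.sum, Finset.mul_sum]
      apply Finset.sum_congr rfl
      intro ω _
      rw [Finsupp.smul_apply, norm_smul]
      ring)

lemma pw_apply (w : Om → ℝ≥0) (u : V 𝕜) :
    pw 𝕜 w u = u.sum fun ω a => (w ω : ℝ) * ‖a‖ := rfl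

lemma pw_eq_sum (w : Om → ℝ≥0) (u : V 𝕜) (s : Finset Om) (hs : u.support ⊆ s) :
    pw 𝕜 w u = ∑ ω ∈ s, (w ω : ℝ) * ‖u ω‖ := by
  rw [pw_apply]
  apply Finsupp.sum_of_support_subset _ hs
  intro i _
  simp

lemma sum_le_pw (w : Om → ℝ≥0) (u : V 𝕜) (s : Finset Om) :
    ∑ ω ∈ s, (w ω : ℝ) * ‖u ω‖ ≤ pw 𝕜 w u := by
  classical
  rw [pw_eq_sum 𝕜 w u (s ∪ u.support) Finset.subset_union_right]
  apply Finset.sum_le_sum_of_subset_of_nonneg Finset.subset_union_left
  intro i _ _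
  positivity

lemma pw_single (w : Om → ℝ≥0) (ω : Om) : pw 𝕜 w (Finsupp.single ω 1) = w ω := by
  rw [pw_apply, Finsupp.sum_single_index (by simp)]
  simp

lemma pw_eq_zero (w : Om → ℝ≥0) (u : V 𝕜) (h : ∀ ω, u ω ≠ 0 → w ω = 0) : pw 𝕜 w u = 0 := by
  rw [pw_apply]
  apply Finset.sum_eq_zero
  intro ω hω
  show (w ω : ℝ) * ‖u ω‖ = 0
  rw [h ω (Finsupp.mem_support_iff.1 hω)]
  simp

/-- index set of the defining family of seminorms -/
def Idx : Type := {w : Om → ℝ≥0 // Small 𝕜 (Function.support w)}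

noncomputable def fam : SeminormFamily 𝕜 (V 𝕜) (Idx 𝕜) := fun w => pw 𝕜 w.1

noncomputable def pre (w : Idx 𝕜) : Idx 𝕜 :=
  ⟨fun ω => (pw 𝕜 w.1 (SS 𝕜 (Finsupp.single ω 1))).toNNReal, by
    apply Small.pre 𝕜 w.2
    intro ω hω
    by_cases h : Ex 𝕜 ω
    · exact Or.inl h
    · right
      refine ⟨h, ?_⟩
      rw [Function.mem_support, SS_single 𝕜 ω h, pw_single] at hω
      rw [Function.mem_support]
      intro h0
      apply hω
      rw [h0]
      simp⟩

lemma pw_SS (w : Idx 𝕜) (u : V 𝕜) : pw 𝕜 w.1 (SS 𝕜 u) ≤ pw 𝕜 (pre 𝕜 w).1 u := by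
  classical
  have h1 : u = ∑ ω ∈ u.support, u ω • (Finsupp.single ω (1 : 𝕜)) := by
    conv_lhs => rw [← Finsupp.sum_single u]
    rw [Finsupp.sum]
    apply Finset.sum_congr rfl
    intro ω _
    rw [Finsupp.smul_single, smul_eq_mul, mul_one]
  have h2 : SS 𝕜 u = ∑ ω ∈ u.support, u ω • SS 𝕜 (Finsupp.single ω (1 : 𝕜)) := by
    conv_lhs => rw [h1]
    rw [map_sum]
    simp_rw [map_smul]
  rw [h2, pw_eq_sum 𝕜 (pre 𝕜 w).1 u u.support subset_rfl]
  have h3 : ∀ s : Finset Om, pw 𝕜 w.1 (∑ ω ∈ s, u ω • SS 𝕜 (Finsupp.single ω (1 : 𝕜))) ≤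
      ∑ ω ∈ s, (((pre 𝕜 w).1 ω : ℝ≥0) : ℝ) * ‖u ω‖ := by
    intro s
    induction s using Finset.induction_on with
    | empty => simp
    | insert a s ha ih =>
      rw [Finset.sum_insert ha, Finset.sum_insert ha]
      refine (map_add_le_add _ _ _).trans (add_le_add ?_ ih)
      rw [map_smul_eq_mul, mul_comm]
      apply le_of_eq
      congr 1
      exact (Real.coe_toNNReal _ (apply_nonneg _ _)).symm
  exact h3 _

noncomputable def dq (k : ℕ) : 𝕜 := if k = 0 then 0 else TopologicalSpace.denseSeq 𝕜 (k - 1)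

lemma toV_apply (g : Om →₀ ℕ) (ω : Om) : toV 𝕜 g ω = dq 𝕜 (g ω) := rfl

lemma dq_zero : dq 𝕜 0 = 0 := by simp [dq]

lemma dq_succ (k : ℕ) : dq 𝕜 (k + 1) = TopologicalSpace.denseSeq 𝕜 k := by simp [dq]

/-- approximation by the countable set -/
lemma approx (q : Seminorm 𝕜 (V 𝕜)) (u : V 𝕜) :
    ∀ ε : ℝ, 0 < ε → ∃ g : Om →₀ ℕ, g.support ⊆ u.support ∧ q (toV 𝕜 g - u) < ε := by
  classical
  induction u using Finsupp.induction with
  | zero =>
    intro ε hε
    refine ⟨0, by simp, ?_⟩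
    have : toV 𝕜 0 = 0 := by
      unfold toV
      exact Finsupp.mapRange_zero
    rw [this]
    simpa using hε
  | single_add a b f ha hb ih =>
    intro ε hε
    obtain ⟨g, hg, hgq⟩ := ih (ε / 2) (half_pos hε)
    obtain ⟨k, hk⟩ : ∃ k, ‖TopologicalSpace.denseSeq 𝕜 k - b‖ * q (Finsupp.single a 1) < ε / 2 := by
      have hpos : 0 < ε / 2 / (q (Finsupp.single a 1) + 1) := by positivity
      obtain ⟨k, hk⟩ := (TopologicalSpace.denseRange_denseSeq 𝕜).exists_dist_lt b hpos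
      refine ⟨k, ?_⟩
      rw [dist_comm, dist_eq_norm, lt_div_iff₀ (by positivity)] at hk
      refine lt_of_le_of_lt ?_ hk
      apply mul_le_mul_of_nonneg_left _ (norm_nonneg _)
      linarith
    have hga : g a = 0 := by
      by_contra h
      exact ha (hg (Finsupp.mem_support_iff.2 h))
    refine ⟨Finsupp.single a (k + 1) + g, ?_, ?_⟩
    · intro ω hω
      rw [Finsupp.mem_support_iff, Finsupp.add_apply] at hω
      rw [Finsupp.mem_support_iff, Finsupp.add_apply]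
      by_cases h : a = ω
      · subst h
        rw [Finsupp.single_eq_same, Finsupp.notMem_support_iff.1 ha, add_zero]
        exact hb
      · rw [Finsupp.single_eq_of_ne (Ne.symm h), zero_add] at hω ⊢
        exact Finsupp.mem_support_iff.1 (hg (Finsupp.mem_support_iff.2 hω))
    · have h1 : toV 𝕜 (Finsupp.single a (k + 1) + g) - (Finsupp.single a b + f) =
          (TopologicalSpace.denseSeq 𝕜 k - b) • Finsupp.single a 1 + (toV 𝕜 g - f) := by
        ext ω
        rw [Finsupp.sub_apply, Finsupp.add_apply, Finsupp.add_apply, Finsupp.smul_apply,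
          Finsupp.sub_apply, toV_apply, toV_apply, Finsupp.add_apply]
        by_cases h : a = ω
        · subst h
          rw [Finsupp.single_eq_same, Finsupp.single_eq_same, Finsupp.single_eq_same, hga,
            add_zero, dq_succ, dq_zero, smul_eq_mul]
          ring
        · rw [Finsupp.single_eq_of_ne (Ne.symm h), Finsupp.single_eq_of_ne (Ne.symm h),
            Finsupp.single_eq_of_ne (Ne.symm h)]
          simp
      rw [h1]
      refine (map_add_le_add _ _ _).trans_lt ?_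
      rw [map_smul_eq_mul]
      linarith

/-- choice of an infinite small subset -/
lemma exists_small (Z : Set Om) (hZ : Z.Infinite) : ∃ A ⊆ Z, A.Infinite ∧ Small 𝕜 A := by
  classical
  -- a sequence `f` in `Z` with levels strictly increasing
  have step : ∀ k : ℕ, ∃ ω ∈ Z, ¬ InO 𝕜 k ω := by
    intro k
    by_contra hcon
    push Not at hcon
    exact hZ ((InO_finite 𝕜 k).subset fun ω hω => hcon ω hω)
  choose f hfZ hf using step
  choose g hg using exists_InO 𝕜
  -- levels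
  let lv : ℕ → ℕ := fun n => Nat.rec 0 (fun _ k => g (f k) + k + 1) n
  have lv_succ : ∀ n, lv (n + 1) = g (f (lv n)) + lv n + 1 := fun n => rfl
  have lvmono : StrictMono lv := strictMono_nat_of_lt_succ fun n => by rw [lv_succ]; omega
  let a : ℕ → Om := fun n => f (lv n)
  have ha1 : ∀ n, ¬ InO 𝕜 (lv n) (a n) := fun n => hf _
  have ha2 : ∀ n m, n < m → InO 𝕜 (lv m) (a n) := by
    intro n m hnm
    have h1 : lv (n + 1) ≤ lv m := lvmono.monotone hnm
    exact InO_mono 𝕜 (by rw [lv_succ] at h1; omega) (hg (f (lv n)))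
  have hinj : Function.Injective a := by
    intro n m h
    by_contra hne
    rcases lt_or_gt_of_ne hne with h' | h'
    · exact ha1 m (h ▸ ha2 n m h')
    · exact ha1 n (h ▸ ha2 m n h')
  refine ⟨Set.range a, ?_, Set.infinite_range_of_injective hinj, 1, ?_⟩
  · rintro _ ⟨n, rfl⟩
    exact hfZ _
  · intro k s hs
    have hsub : s ⊆ (Finset.range (k + 1)).image a := by
      intro ω hω
      obtain ⟨⟨n, rfl⟩, h2⟩ := hs ω hω
      rw [Finset.mem_image]
      refine ⟨n, ?_, rfl⟩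
      rw [Finset.mem_range]
      by_contra hcon
      have h3 : k ≤ lv n := by
        have := lvmono.le_apply (x := n)
        omega
      exact ha1 n (InO_mono 𝕜 h3 h2)
    calc s.card ≤ _ := Finset.card_le_card hsub
      _ ≤ _ := Finset.card_image_le
      _ = 1 * (k + 1) := by rw [Finset.card_range, one_mul]

/-- completeness, in terms of Cauchy filters -/
lemma complete_aux (F : Filter (V 𝕜)) [F.NeBot]
    (hF : ∀ (w : Idx 𝕜) (ε : ℝ), 0 < ε → ∃ S ∈ F, ∀ a ∈ S, ∀ b ∈ S, pw 𝕜 w.1 (a - b) < ε) :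
    ∃ z : V 𝕜, ∀ (w : Idx 𝕜) (ε : ℝ), 0 < ε → ∀ᶠ a in F, pw 𝕜 w.1 (a - z) < ε := by
  classical
  -- coordinatewise limits
  have hcoord : ∀ ω : Om, ∃ c : 𝕜, Tendsto (fun a : V 𝕜 => a ω) F (𝓝 c) := by
    intro ω
    apply CompleteSpace.complete
    rw [Metric.cauchy_iff]
    refine ⟨inferInstance, fun ε hε => ?_⟩
    let w : Idx 𝕜 := ⟨fun ω' => if ω' = ω then 1 else 0,
      (small_singleton 𝕜 ω).mono 𝕜 (by
        intro ω' h
        by_contra hne
        rw [Function.mem_support] at h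
        exact h (if_neg hne))⟩
    obtain ⟨S, hS, hS'⟩ := hF w ε hε
    refine ⟨(fun a : V 𝕜 => a ω) '' S, Filter.image_mem_map hS, ?_⟩
    rintro _ ⟨a, ha, rfl⟩ _ ⟨b, hb, rfl⟩
    have h1 := sum_le_pw 𝕜 w.1 (a - b) {ω}
    rw [Finset.sum_singleton] at h1
    have h2 : w.1 ω = 1 := if_pos rfl
    rw [h2, Finsupp.sub_apply] at h1
    rw [dist_eq_norm]
    have h3 := hS' a ha b hb
    simp only [NNReal.coe_one, one_mul] at h1
    exact h1.trans_lt h3
  choose z hz using hcoord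
  -- uniform estimate on finite sets
  have hest : ∀ (w : Idx 𝕜) (ε : ℝ), 0 < ε → ∃ S ∈ F, ∀ a ∈ S, ∀ s : Finset Om,
      ∑ ω ∈ s, (w.1 ω : ℝ) * ‖a ω - z ω‖ ≤ ε := by
    intro w ε hε
    obtain ⟨S, hS, hS'⟩ := hF w ε hε
    refine ⟨S, hS, fun a ha s => ?_⟩
    have h1 : Tendsto (fun b : V 𝕜 => ∑ ω ∈ s, (w.1 ω : ℝ) * ‖a ω - b ω‖) F
        (𝓝 (∑ ω ∈ s, (w.1 ω : ℝ) * ‖a ω - z ω‖)) := by
      apply tendsto_finsetSum
      intro ω _
      exact ((tendsto_const_nhds.sub (hz ω)).norm).const_mul _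
    refine le_of_tendsto h1 ?_
    filter_upwards [hS] with b hb
    have h2 := sum_le_pw 𝕜 w.1 (a - b) s
    exact h2.trans (hS' a ha b hb).le
  -- finite support
  have hfin : {ω | z ω ≠ 0}.Finite := by
    by_contra hinf
    obtain ⟨A, hAZ, hAinf, hAsm⟩ := exists_small 𝕜 _ hinf
    let w : Idx 𝕜 := ⟨fun ω => if ω ∈ A then (‖z ω‖₊)⁻¹ else 0,
      hAsm.mono 𝕜 (by
        intro ω h
        by_contra hne
        rw [Function.mem_support] at h
        exact h (if_neg hne))⟩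
    obtain ⟨S, hS, hS'⟩ := hest w 1 one_pos
    obtain ⟨a, ha⟩ := F.nonempty_of_mem hS
    have h1 : (A \ (a.support : Set Om)).Infinite := hAinf.sdiff (Finset.finite_toSet _)
    obtain ⟨s, hs, hcard⟩ := h1.exists_subset_card_eq 2
    have h2 := hS' a ha s
    have h3 : ∀ ω ∈ s, (w.1 ω : ℝ) * ‖a ω - z ω‖ = 1 := by
      intro ω hω
      obtain ⟨h4, h5⟩ := hs hω
      have h6 : a ω = 0 := by
        by_contra h
        exact h5 (Finset.mem_coe.2 (Finsupp.mem_support_iff.2 h))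
      have h7 : w.1 ω = (‖z ω‖₊)⁻¹ := if_pos h4
      have h8 : ‖z ω‖ ≠ 0 := norm_ne_zero_iff.2 (hAZ h4)
      rw [h6, zero_sub, norm_neg, h7, NNReal.coe_inv, coe_nnnorm, inv_mul_cancel₀ h8]
    rw [Finset.sum_congr rfl h3, Finset.sum_const, hcard] at h2
    norm_num at h2
  refine ⟨Finsupp.ofSupportFinite z hfin, fun w ε hε => ?_⟩
  obtain ⟨S, hS, hS'⟩ := hest w (ε / 2) (half_pos hε)
  filter_upwards [hS] with a ha
  refine lt_of_le_of_lt ?_ (half_lt_self hε)
  rw [pw_eq_sum 𝕜 w.1 _ _ subset_rfl]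
  exact hS' a ha _

lemma small_biUnion (s : Finset (Idx 𝕜)) : Small 𝕜 (⋃ w ∈ s, Function.support w.1) := by
  classical
  induction s using Finset.induction_on with
  | empty => simpa using small_empty 𝕜
  | insert a s ha ih =>
    rw [Finset.set_biUnion_insert]
    exact Small.union 𝕜 a.2 ih

/-- density of the orbit -/
lemma dense_aux (s : Finset (Idx 𝕜)) (u : V 𝕜) (ε : ℝ) (hε : 0 < ε) :
    ∃ n : ℕ, ∀ w ∈ s, pw 𝕜 w.1 ((SS 𝕜 ^ n) ((psi 𝕜).symm (xx 𝕜 0)) - u) < ε := by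
  classical
  -- a seminorm dominating all
  let q : Seminorm 𝕜 (V 𝕜) := (s.sup fun w => pw 𝕜 w.1).comp (psi 𝕜).symm.toLinearMap
  obtain ⟨g, -, hg⟩ := approx 𝕜 q (psi 𝕜 u) ε hε
  have hgw : ∀ w ∈ s, pw 𝕜 w.1 ((psi 𝕜).symm (toV 𝕜 g) - u) < ε := by
    intro w hw
    refine lt_of_le_of_lt ?_ hg
    have h1 : q (toV 𝕜 g - psi 𝕜 u) =
        (s.sup fun w => pw 𝕜 w.1) ((psi 𝕜).symm (toV 𝕜 g) - u) := by
      show (s.sup fun w => pw 𝕜 w.1) ((psi 𝕜).symm (toV 𝕜 g - psi 𝕜 u)) = _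
      rw [map_sub, LinearEquiv.symm_apply_apply]
    rw [h1]
    exact Seminorm.le_def.1 (Finset.le_sup (f := fun w : Idx 𝕜 => pw 𝕜 w.1) hw) _
  have hA : Small 𝕜 (⋃ w ∈ s, Function.support w.1) := small_biUnion 𝕜 s
  obtain ⟨C, hC⟩ := hA
  obtain ⟨j, hj, hvj⟩ := vv_hit 𝕜 g C
  obtain ⟨r, hr, hJ⟩ := exists_visit 𝕜 hC hj
  refine ⟨vt 𝕜 j r, fun w hw => ?_⟩
  rw [SS_pow_apply, LinearEquiv.apply_symm_apply, pow_xx, zero_add]
  have h1 : (psi 𝕜).symm (xx 𝕜 (vt 𝕜 j r)) - u =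
      ((psi 𝕜).symm (xx 𝕜 (vt 𝕜 j r)) - (psi 𝕜).symm (vv 𝕜 j)) +
        ((psi 𝕜).symm (toV 𝕜 g) - u) := by
    rw [hvj]; abel
  rw [h1]
  refine (map_add_le_add _ _ _).trans_lt ?_
  rw [pw_eq_zero, zero_add]
  · exact hgw w hw
  · intro ω hω
    have h2 := hJ ω (junk 𝕜 j r hr ω hω)
    by_contra h3
    exact h2 (Set.mem_biUnion hw h3)

end aux

/-- There is a complete locally convex space of countably infinite Hamel dimension with a
hypercyclic operator. -/
theorem result (𝕜 : Type) [RCLike 𝕜] :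
    ∃ (X : Type) (_ : AddCommGroup X) (_ : Module ℝ X) (_ : Module 𝕜 X)
      (_ : IsScalarTower ℝ 𝕜 X) (_ : UniformSpace X) (_ : IsUniformAddGroup X)
      (_ : ContinuousSMul 𝕜 X), T2Space X ∧ LocallyConvexSpace ℝ X ∧ CompleteSpace X ∧
      Module.rank 𝕜 X = Cardinal.aleph0 ∧
      ∃ (T : X →L[𝕜] X) (x : X), Dense (Set.range fun n : ℕ => (T ^ n) x) := by
  classical
  letI τ : TopologicalSpace (V 𝕜) := (fam 𝕜).moduleFilterBasis.topology
  have hW : WithSeminorms (fam 𝕜) := ⟨rfl⟩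
  haveI : IsTopologicalAddGroup (V 𝕜) := hW.topologicalAddGroup
  haveI : ContinuousSMul 𝕜 (V 𝕜) := hW.continuousSMul
  letI : UniformSpace (V 𝕜) := IsTopologicalAddGroup.rightUniformSpace (V 𝕜)
  haveI : IsUniformAddGroup (V 𝕜) := isUniformAddGroup_of_addCommGroup
  have hcont : Continuous (SS 𝕜) := by
    apply hW.continuous_of_isBounded hW
    intro w
    refine ⟨{pre 𝕜 w}, 1, ?_⟩
    rw [one_smul, Finset.sup_singleton]
    intro u
    exact pw_SS 𝕜 w u
  refine ⟨V 𝕜, inferInstance, inferInstance, inferInstance, inferInstance, inferInstance,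
    inferInstance, inferInstance, ?_, hW.toLocallyConvexSpace, ?_, ?_, ⟨SS 𝕜, hcont⟩,
    (psi 𝕜).symm (xx 𝕜 0), ?_⟩
  · haveI : T1Space (V 𝕜) := by
      apply hW.T1_of_separating
      intro u hu
      obtain ⟨ω, hω⟩ := Finsupp.ne_iff.1 hu
      refine ⟨⟨fun ω' => if ω' = ω then 1 else 0, (small_singleton 𝕜 ω).mono 𝕜 (by
        intro ω' h
        by_contra hne
        rw [Function.mem_support] at h
        exact h (if_neg hne))⟩, ?_⟩
      have h1 := sum_le_pw 𝕜 (fun ω' => if ω' = ω then 1 else 0) u {ω}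
      rw [Finset.sum_singleton] at h1
      have h2 : 0 < ‖u ω‖ := norm_pos_iff.2 (by simpa using hω)
      apply ne_of_gt
      refine lt_of_lt_of_le ?_ h1
      simpa using h2
    infer_instance
  · constructor
    intro F hF
    haveI := hF.1
    obtain ⟨z, hz⟩ := complete_aux 𝕜 F (by
      intro w ε hε
      have h0 : ((fam 𝕜) w).ball 0 ε ∈ 𝓝 (0 : V 𝕜) := by
        rw [hW.mem_nhds_iff]
        exact ⟨{w}, ε, hε, by rw [Finset.sup_singleton]⟩
      have h1 : {p : V 𝕜 × V 𝕜 | p.2 - p.1 ∈ ((fam 𝕜) w).ball 0 ε} ∈ uniformity (V 𝕜) := by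
        rw [uniformity_eq_comap_nhds_zero]
        exact ⟨_, h0, subset_rfl⟩
      obtain ⟨S, hS, hS'⟩ := (cauchy_iff.1 hF).2 _ h1
      refine ⟨S, hS, fun a ha b hb => ?_⟩
      have h2 := hS' (Set.mk_mem_prod hb ha)
      simpa [Seminorm.mem_ball, fam] using h2)
    refine ⟨z, ?_⟩
    have := (hW.tendsto_nhds (f := F) id z).2 hz
    simpa [Filter.Tendsto] using this
  · rw [rank_finsupp_self]
    simp
  · intro u
    rw [mem_closure_iff_nhds]
    intro U hU
    rw [hW.mem_nhds_iff] at hU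
    obtain ⟨s, r, hr, hsub⟩ := hU
    obtain ⟨n, hn⟩ := dense_aux 𝕜 s u r hr
    refine ⟨(SS 𝕜 ^ n) ((psi 𝕜).symm (xx 𝕜 0)), hsub ?_, n, ?_⟩
    · rw [Seminorm.mem_ball]
      exact Seminorm.finset_sup_apply_lt hr hn
    · have hp : ∀ (n : ℕ) (x : V 𝕜), ((⟨SS 𝕜, hcont⟩ : V 𝕜 →L[𝕜] V 𝕜) ^ n) x = (SS 𝕜 ^ n) x := by
        intro n
        induction n with
        | zero => intro x; rfl
        | succ n ih =>
          intro x
          rw [pow_succ, pow_succ]
          exact ih _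
      exact hp n _

end Pool.Agent.Results.MP_3984bd_an.Exists
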